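import Mathlib
import Pool.Agent.Lib.MP_8301b4_gt.Defs

/-!
# MP_8301b4_gt, Q1: a space for which no choice makes `P` ccc

The space is the set of nonempty finite strictly decreasing sequences of countable ordinals, each
term carrying a label in `ω₁`, with the coarse wedge topology of the tree of initial segments.
-/

namespace Pool.Agent.Results.MP_8301b4_gt.NeverCcc

open Topology Filter Set
open scoped Cardinal Ordinal
open Pool.Agent.Lib.MP_8301b4_gt

/-- The well-ordered set `ω₁`. -/
abbrev Ω : Type := (Ordinal.omega 1 : Ordinal.{0}).ToType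

/-- A node: a nonempty list whose first coordinates increase strictly from the head on. -/
def Node : Type := {l : List (Ω × Ω) // l ≠ [] ∧ l.Pairwise (fun a b => a.1 < b.1)}

/-- `s ≤ t` in the tree: the list `s` is a final segment of the list `t`. -/
def Below (s t : Node) : Prop := s.1 <:+ t.1

open Classical in
/-- characteristic functions of the sets of predecessors -/
noncomputable def Ψ (t s : Node) : ℝ := if Below s t then 1 else 0

noncomputable instance : TopologicalSpace Node := TopologicalSpace.induced Ψ inferInstance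

lemma Ψ_eq_iff {t t' s : Node} : Ψ t' s = Ψ t s ↔ (Below s t' ↔ Below s t) := by
  unfold Ψ
  by_cases h1 : Below s t <;> by_cases h2 : Below s t' <;> simp [h1, h2]

lemma inducing_Ψ : IsInducing Ψ := ⟨rfl⟩

lemma isOpen_wedge (s : Node) : IsOpen {t | Below s t} := by
  have h1 : Continuous (fun t => Ψ t s) := (continuous_apply s).comp inducing_Ψ.continuous
  have h2 : {t | Below s t} = {t | (1 / 2 : ℝ) < Ψ t s} := by
    ext t
    simp only [mem_ofPred_eq, Ψ]
    by_cases h : Below s t <;> simp [h]
    norm_num
  rw [h2]
  exact isOpen_lt continuous_const h1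

lemma exists_finset_of_mem_nhds {t : Node} {U : Set Node} (hU : U ∈ 𝓝 t) :
    ∃ F : Finset Node, ∀ t', (∀ s ∈ F, (Below s t' ↔ Below s t)) → t' ∈ U := by
  rw [inducing_Ψ.nhds_eq_comap, mem_comap] at hU
  obtain ⟨W, hW, hWU⟩ := hU
  rw [nhds_pi, Filter.mem_pi] at hW
  obtain ⟨I, hI, v, hv, hsub⟩ := hW
  refine ⟨hI.toFinset, fun t' ht' => hWU (hsub ?_)⟩
  intro s hs
  have h1 : Ψ t' s = Ψ t s := Ψ_eq_iff.mpr (ht' s (by simpa using hs))
  rw [h1]
  exact mem_of_mem_nhds (hv s)

lemma Below.refl (t : Node) : Below t t := List.suffix_refl _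

lemma Below.antisymm {s t : Node} (h1 : Below s t) (h2 : Below t s) : s = t :=
  Subtype.ext (h1.eq_of_length (le_antisymm h1.length_le h2.length_le))

lemma finite_below (t : Node) : {s : Node | Below s t}.Finite := by
  have h1 : {l : List (Ω × Ω) | l <:+ t.1}.Finite := by
    refine (List.finite_toSet t.1.tails).subset ?_
    intro l hl
    simpa using hl
  exact Set.Finite.preimage (f := fun s : Node => s.1) (fun a _ b _ h => Subtype.ext h) h1

/-- the ordinal of the last term of the sequence -/
noncomputable def top (t : Node) : Ω := (t.1.head t.2.1).1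

noncomputable def rk (t : Node) : Ordinal.{0} := (Ordinal.ToType.toOrd (top t)).1

lemma rk_lt (t : Node) : rk t < Ordinal.omega 1 := (Ordinal.ToType.toOrd (top t)).2

lemma rk_lt_rk {s t : Node} : rk s < rk t ↔ top s < top t := by
  unfold rk
  rw [Subtype.coe_lt_coe]
  exact (Ordinal.ToType.mk.symm).lt_iff_lt

lemma list_aux {s t : List (Ω × Ω)} (hs : s ≠ []) (ht : t ≠ [])
    (hp : t.Pairwise (fun a b => a.1 < b.1)) (h : s <:+ t) :
    s = t ∨ (t.head ht).1 < (s.head hs).1 := by
  cases t with
  | nil => exact absurd rfl ht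
  | cons b t' =>
    rw [List.suffix_cons_iff] at h
    rcases h with h | h
    · exact Or.inl h
    · right
      rw [List.pairwise_cons] at hp
      exact hp.1 _ (h.subset (List.head_mem hs))

lemma Below.rk_lt {s t : Node} (h : Below s t) (hne : t ≠ s) : rk t < rk s := by
  rcases list_aux s.2.1 t.2.1 t.2.2 h with h1 | h1
  · exact absurd (Subtype.ext h1).symm hne
  · exact rk_lt_rk.mpr h1

/-- the child of `t` with ordinal `a` and label `c` -/
def child (t : Node) (a c : Ω) (ha : a < top t) : Node :=
  ⟨(a, c) :: t.1, by simp, by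
    rw [List.pairwise_cons]
    refine ⟨?_, t.2.2⟩
    intro p hp
    have h2 := t.2.2
    have h3 : t.1 = t.1.head t.2.1 :: t.1.tail := (List.cons_head_tail t.2.1).symm
    rw [h3] at h2 hp
    rw [List.pairwise_cons] at h2
    rcases List.mem_cons.mp hp with h | h
    · rw [h]; exact ha
    · exact lt_trans ha (h2.1 p h)⟩

lemma top_child (t : Node) (a c : Ω) (ha : a < top t) : top (child t a c ha) = a := rfl

lemma below_child {s t : Node} {a c : Ω} {ha : a < top t} :
    Below s (child t a c ha) ↔ s = child t a c ha ∨ Below s t := by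
  unfold Below child
  rw [List.suffix_cons_iff]
  constructor
  · rintro (h | h)
    · exact Or.inl (Subtype.ext h)
    · exact Or.inr h
  · rintro (h | h)
    · exact Or.inl (congrArg Subtype.val h)
    · exact Or.inr h

instance : Infinite Ω := by
  rw [Cardinal.infinite_iff, Cardinal.mk_toType, ← Cardinal.ord_aleph, Cardinal.card_ord]
  exact Cardinal.aleph0_le_aleph 1

lemma uncountable_Ω : ¬ (univ : Set Ω).Countable := by
  rw [Set.countable_univ_iff, ← Cardinal.mk_le_aleph0_iff, Cardinal.mk_toType,
    ← Cardinal.ord_aleph, Cardinal.card_ord, not_le]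
  exact Cardinal.aleph0_lt_aleph_one

lemma mk_Ω : #Ω = Cardinal.aleph 1 := by
  rw [Cardinal.mk_toType, ← Cardinal.ord_aleph, Cardinal.card_ord]

/-- all but finitely many children with a given ordinal lie in a given neighbourhood -/
lemma finite_children {t : Node} {U : Set Node} (hU : U ∈ 𝓝 t) (a : Ω) (ha : a < top t) :
    {c : Ω | child t a c ha ∉ U}.Finite := by
  obtain ⟨F, hF⟩ := exists_finset_of_mem_nhds hU
  have hinj : Function.Injective (fun c : Ω => child t a c ha) := by
    intro c d hcd
    have := congrArg Subtype.val hcd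
    simp only [child, List.cons.injEq, Prod.mk.injEq, and_true, true_and] at this
    exact this
  refine (Set.Finite.preimage hinj.injOn F.finite_toSet).subset ?_
  intro c hc
  by_contra hcF
  apply hc
  apply hF
  intro s hs
  rw [below_child]
  constructor
  · rintro (h | h)
    · exfalso
      apply hcF
      show child t a c ha ∈ (F : Set Node)
      rw [← h]; exact hs
    · exact h
  · exact Or.inr

lemma exists_top_eq {α : Ordinal.{0}} (hα : α < Ordinal.omega 1) :
    ∃ a : Ω, (Ordinal.ToType.toOrd a).1 = α := by
  refine ⟨Ordinal.ToType.mk ⟨α, hα⟩, ?_⟩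
  simp

lemma cbDeriv_node (α : Ordinal.{0}) : cbDeriv Node α = {t | α ≤ rk t} := by
  induction α using Ordinal.limitRecOn with
  | zero => rw [cbDeriv_zero]; ext t; simp
  | add_one α ih =>
    rw [cbDeriv_add_one, ih]
    ext t
    simp only [mem_ofPred_eq]
    constructor
    · rintro ⟨h1, h2⟩
      rw [Order.add_one_le_iff]
      refine lt_of_le_of_ne h1 ?_
      intro h3
      rw [accPt_iff_nhds] at h2
      obtain ⟨y, ⟨hy1, hy2⟩, hy3⟩ := h2 _ ((isOpen_wedge t).mem_nhds (Below.refl t))
      have h4 := Below.rk_lt hy1 hy3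
      rw [← h3] at h4
      exact absurd hy2 (not_le.mpr h4)
    · intro h
      rw [Order.add_one_le_iff] at h
      refine ⟨h.le, ?_⟩
      rw [accPt_iff_nhds]
      intro U hU
      obtain ⟨a, ha⟩ := exists_top_eq (h.trans (rk_lt t))
      have hat : a < top t := by
        have h1 : (Ordinal.ToType.toOrd a).1 < (Ordinal.ToType.toOrd (top t)).1 := by
          rw [ha]; exact h
        rw [Subtype.coe_lt_coe] at h1
        exact (Ordinal.ToType.mk.symm).lt_iff_lt.mp h1
      have hfin := finite_children hU a hat
      obtain ⟨c, hc⟩ := hfin.infinite_compl.nonempty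
      have hc' : child t a c hat ∈ U := by
        by_contra hcon
        exact hc hcon
      refine ⟨child t a c hat, ⟨hc', ?_⟩, ?_⟩
      · show α ≤ rk (child t a c hat)
        unfold rk
        rw [top_child, ha]
      · intro hcon
        have h5 : top (child t a c hat) = top t := by rw [hcon]
        rw [top_child] at h5
        exact absurd hat (by rw [h5]; exact lt_irrefl _)
  | limit α hα ih =>
    rw [cbDeriv_limit _ hα]
    ext t
    simp only [mem_iInter, mem_ofPred_eq]
    constructor
    · intro h
      by_contra hcon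
      push Not at hcon
      have h1 := hα.succ_lt hcon
      have h2 := h _ h1
      rw [ih _ h1] at h2
      have h3 : Order.succ (rk t) ≤ rk t := h2
      exact absurd (Order.succ_le_iff.mp h3) (lt_irrefl _)
    · intro h β hβ
      rw [ih β hβ]
      exact hβ.le.trans h

lemma level_node (α : Ordinal.{0}) : level Node α = {t | rk t = α} := by
  unfold level
  rw [cbDeriv_node, cbDeriv_node]
  ext t
  simp only [Set.mem_sdiff, mem_ofPred_eq, Order.add_one_le_iff, not_lt]
  exact ⟨fun h => le_antisymm h.2 h.1, fun h => ⟨h.ge, h.le⟩⟩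

/-- a one-term sequence -/
def single (a c : Ω) : Node := ⟨[(a, c)], by simp, by simp⟩

lemma hasHeight_node : HasHeight Node (Ordinal.omega 1) := by
  constructor
  · rw [mem_ofPred_eq, cbDeriv_node]
    ext t
    simp only [mem_ofPred_eq, mem_empty_iff_false, iff_false, not_le]
    exact rk_lt t
  · intro β hβ
    rw [mem_ofPred_eq, cbDeriv_node] at hβ
    by_contra hcon
    push Not at hcon
    obtain ⟨a, ha⟩ := exists_top_eq hcon
    have : single a a ∈ ({t | β ≤ rk t} : Set Node) := by
      show β ≤ rk (single a a)
      unfold rk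
      have : top (single a a) = a := rfl
      rw [this, ha]
    rw [hβ] at this
    exact this

lemma mk_node : #Node = Cardinal.aleph 1 := by
  apply le_antisymm
  · have h1 : #Node ≤ #(List (Ω × Ω)) := Cardinal.mk_subtype_le _
    refine h1.trans ?_
    rw [Cardinal.mk_list_eq_mk, Cardinal.mk_prod]
    simp only [Cardinal.lift_id]
    rw [mk_Ω, Cardinal.mul_eq_self (Cardinal.aleph0_le_aleph 1)]
  · rw [← mk_Ω]
    refine Cardinal.mk_le_of_injective (f := fun a : Ω => single a a) ?_
    intro a b hab
    have := congrArg Subtype.val hab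
    simpa [single] using this

lemma scattered_node : Scattered Node := by
  intro Y hY
  obtain ⟨y, hyY, hy⟩ := (InvImage.wf rk Ordinal.lt_wf).has_min Y hY
  refine ⟨y, hyY, ?_⟩
  rw [accPt_iff_nhds]
  push Not
  refine ⟨_, (isOpen_wedge y).mem_nhds (Below.refl y), ?_⟩
  rintro z ⟨hz1, hz2⟩
  by_contra hne
  exact hy z hz2 (Below.rk_lt hz1 hne)

lemma hml_node : HereditarilyMetaLindelof Node := by
  intro Y 𝒰 hopen hcov
  have h1 : ∀ y : Y, ∃ U ∈ 𝒰, y ∈ U := by
    intro y
    have : y ∈ ⋃₀ 𝒰 := by rw [hcov]; trivial
    exact this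
  choose U hU hyU using h1
  let V : Y → Set Y := fun y => U y ∩ {z : Y | Below y.1 z.1}
  refine ⟨range V, ?_, ?_, ?_, ?_⟩
  · rintro _ ⟨y, rfl⟩
    exact (hopen _ (hU y)).inter ((isOpen_wedge y.1).preimage continuous_subtype_val)
  · refine eq_univ_of_forall fun y => ?_
    exact ⟨V y, mem_range_self y, hyU y, Below.refl _⟩
  · rintro _ ⟨y, rfl⟩
    exact ⟨U y, hU y, inter_subset_left⟩
  · intro x
    have h2 : {y : Y | Below y.1 x.1}.Finite :=
      Set.Finite.preimage (f := fun y : Y => y.1) (Subtype.val_injective.injOn) (finite_below x.1)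
    refine ((h2.image V).subset ?_).countable
    rintro _ ⟨⟨y, rfl⟩, hxy⟩
    exact ⟨y, hxy.2, rfl⟩

/-- the discrete copy of the set of nodes -/
def NodeD : Type := Node

instance : TopologicalSpace NodeD := ⊥
instance : DiscreteTopology NodeD := ⟨rfl⟩

open OnePoint in
/-- the function on the one-point compactification of the discrete set of nodes -/
noncomputable def embFun (t : Node) : OnePoint NodeD → ℝ :=
  fun x => OnePoint.elim x (0 : ℝ) (fun s : NodeD => Ψ t s)

lemma continuous_embFun (t : Node) : Continuous (embFun t) := by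
  rw [OnePoint.continuous_iff_from_discrete]
  refine Tendsto.congr' ?_ tendsto_const_nhds
  have h1 : {s : NodeD | ¬ ((0 : ℝ) = embFun t (s : OnePoint NodeD))}.Finite := by
    refine (finite_below t).subset ?_
    intro s hs
    by_contra hcon
    apply hs
    show (0 : ℝ) = Ψ t s
    have hcon' : ¬ Below s t := hcon
    unfold Ψ
    rw [if_neg hcon']
  exact h1

lemma eg_node : EberleinGrothendieck Node := by
  refine ⟨OnePoint NodeD, inferInstance, inferInstance, inferInstance,
    fun t => ⟨embFun t, continuous_embFun t⟩, ?_, ?_⟩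
  · have hval : IsInducing (fun t : Node => embFun t) := by
      refine IsInducing.of_comp (g := fun (h : OnePoint NodeD → ℝ) (s : Node) =>
        h (OnePoint.some (X := NodeD) s)) ?_ ?_ ?_
      · refine continuous_pi fun x => ?_
        induction x using OnePoint.rec with
        | infty => exact continuous_const
        | coe s => exact (continuous_apply s).comp inducing_Ψ.continuous
      · exact continuous_pi fun s => continuous_apply _
      · exact inducing_Ψ
    exact IsInducing.of_comp (g := Subtype.val)
      (Continuous.subtype_mk hval.continuous _) continuous_subtype_val hval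
  · intro t t' h
    have h1 : embFun t = embFun t' := congrArg Subtype.val h
    have h2 : ∀ s : Node, Below s t ↔ Below s t' := by
      intro s
      apply Ψ_eq_iff.mp
      exact congrFun h1 (OnePoint.some (X := NodeD) s)
    exact Below.antisymm ((h2 t).mp (Below.refl t)) ((h2 t').mpr (Below.refl t'))

lemma t35_node : T35Space Node := by
  obtain ⟨K, _, _, _, f, hf⟩ := eg_node
  exact hf.t35Space

lemma isProblemSpace_node : IsProblemSpace Node :=
  ⟨t35_node, eg_node, hml_node, scattered_node, hasHeight_node, mk_node⟩

lemma exists_choice : ∃ (U : Node → Set Node) (𝒱 : Set (Set Node)),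
    LevelIsolating U ∧ IsPointCountableOpenRefinement 𝒱 (range U) := by
  refine ⟨fun x => {t | Below x t}, range (fun x : Node => {t | Below x t}), ?_, ?_, ?_, ?_, ?_⟩
  · intro x
    refine ⟨isOpen_wedge x, ?_⟩
    intro α hα
    rw [level_node] at hα ⊢
    ext t
    simp only [mem_inter_iff, mem_ofPred_eq, mem_singleton_iff]
    constructor
    · rintro ⟨h1, h2⟩
      by_contra hne
      have h3 := Below.rk_lt h1 hne
      rw [h2] at h3
      have h4 : rk x = α := hα
      rw [h4] at h3
      exact lt_irrefl _ h3
    · rintro rfl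
      exact ⟨Below.refl _, hα⟩
  · rintro _ ⟨x, rfl⟩
    exact isOpen_wedge x
  · exact eq_univ_of_forall fun y => ⟨_, mem_range_self y, Below.refl y⟩
  · rintro V hV
    exact ⟨V, hV, Subset.rfl⟩
  · intro x
    refine (((finite_below x).image (fun x : Node => {t | Below x t})).subset ?_).countable
    rintro _ ⟨⟨y, rfl⟩, hxy⟩
    exact ⟨y, hxy, rfl⟩

/-- **Negative answer to the question.**  There is a (Tychonoff) Eberlein-Grothendieck,
hereditarily meta-Lindelöf, scattered space of height and cardinality `ω₁` such that for EVERY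
choice of the open sets `U_x` and every choice of the point-countable open refinement `𝒱` the
poset `P` fails the countable chain condition (and such choices exist). -/
theorem result : ∃ (X : Type) (_ : TopologicalSpace X), IsProblemSpace X ∧
    (∃ (U : X → Set X) (𝒱 : Set (Set X)),
      LevelIsolating U ∧ IsPointCountableOpenRefinement 𝒱 (range U)) ∧
    ∀ (U : X → Set X) (𝒱 : Set (Set X)), LevelIsolating U →
      IsPointCountableOpenRefinement 𝒱 (range U) → ¬ CCC (conditions 𝒱) := by
  refine ⟨Node, inferInstance, isProblemSpace_node, exists_choice, ?_⟩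
  intro U 𝒱 _ hV
  obtain ⟨a, ha⟩ := exists_top_eq (α := 0) (by
    exact Ordinal.omega_pos 1)
  obtain ⟨b, hb⟩ := exists_top_eq (α := 1) (by
    exact lt_of_lt_of_le Ordinal.one_lt_omega0 (Ordinal.omega0_le_omega 1))
  have hab : a < b := by
    have h1 : (Ordinal.ToType.toOrd a).1 < (Ordinal.ToType.toOrd b).1 := by
      rw [ha, hb]; exact zero_lt_one
    rw [Subtype.coe_lt_coe] at h1
    exact (Ordinal.ToType.mk.symm).lt_iff_lt.mp h1
  let t : Node := single b b
  have hat : a < top t := hab
  have ht : t ∈ ⋃₀ 𝒱 := by rw [hV.2.1]; trivial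
  obtain ⟨V, hV1, htV⟩ := ht
  apply not_ccc_of_uncountable hV.2.1 hV1
  intro hcount
  have hfin := finite_children ((hV.1 V hV1).mem_nhds htV) a hat
  have hinj : Function.Injective (fun c : Ω => child t a c hat) := by
    intro c d hcd
    have := congrArg Subtype.val hcd
    simp only [child, List.cons.injEq, Prod.mk.injEq, and_true, true_and] at this
    exact this
  have h2 : {c : Ω | child t a c hat ∈ V}.Countable :=
    Set.Countable.preimage_of_injOn hcount hinj.injOn
  apply uncountable_Ω
  have h3 : (univ : Set Ω) = {c : Ω | child t a c hat ∈ V} ∪ {c : Ω | child t a c hat ∉ V} := by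
    ext c; simp [em]
  rw [h3]
  exact h2.union hfin.countable

end Pool.Agent.Results.MP_8301b4_gt.NeverCcc
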